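import Pool.Agent.H28.N6.Lib

/-!
# Row DCHA: one chart: the average is not much below zero
-/

set_option autoImplicit false

open MeasureTheory Pool.Agent.H28.N6 Topology Filter

namespace Pool.Agent.H10.N6D

lemma cha_aux (hCH1 : T_CH1) (hCH2 : T_CH2) (hMEA : T_MEA)
    (F : Type) [NontriviallyNormedField F] [IsUltrametricDist F] [ProperSpace F]
    [MeasurableSpace F] [BorelSpace F] (D : Dat F) (h2 : (2 : F) ≠ 0)
    (A B : Matrix (Fin 4) (Fin 4) F) (hA : A.transpose = A) (hB : B.transpose = B)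
    (hiso : ∀ t : F, ‖t‖ ≤ 1 → ¬ IsoSp (A + t • B) 2)
    (hsimp : ∀ t : F, ‖t‖ ≤ 1 → (dp A B).eval t = 0 → (dp A B).derivative.eval t ≠ 0)
    (S : Set F) (hSo : IsOpen S) (hSc : IsClosed S) (hS1 : ∀ t ∈ S, ‖t‖ ≤ 1)
    (hSd : ∀ t ∈ S, (A + t • B).det ≠ 0) (η : ℝ) (hη : 0 < η) :
    ∃ m0 : ℕ, ∀ m, m0 ≤ m →
      (∫ t in S, TT D.q (V D (A + t • B) 0) m ∂D.μ) - η * ((D.q : ℝ) ^ (2 * m))⁻¹ ≤
      ∫ t in {t : F | ‖t‖ ≤ 1}, TT D.q (V D (A + t • B) 0) m ∂D.μ := by
  classical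
  have := D.haar
  have hq : (2 : ℝ) ≤ D.q := by exact_mod_cast D.hq
  have p0 : 0 < ‖D.p‖ := norm_pos_iff.2 D.p0
  have hne : dp A B ≠ 0 := by
    intro h
    have h1 := hsimp 0 (by simp) (by rw [h]; simp)
    rw [h] at h1
    simp at h1
  obtain ⟨R, hmem⟩ : ∃ R : Finset F, ∀ r, r ∈ R ↔ (dp A B).eval r = 0 ∧ ‖r‖ ≤ 1 := by
    refine ⟨(dp A B).roots.toFinset.filter (fun r => ‖r‖ ≤ 1), fun r => ?_⟩
    rw [Finset.mem_filter, Multiset.mem_toFinset, Polynomial.mem_roots hne,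
      Polynomial.IsRoot.def]
  have hch : ∀ r ∈ R, ∃ (J : ℕ) (C : ℝ), ∀ K m : ℕ, J ≤ K →
      |∫ t in {t : F | ‖t - r‖ ≤ ‖D.p‖ ^ K}, TT D.q (V D (A + t • B) 0) m ∂D.μ| ≤
        C * (Real.sqrt D.q ^ K)⁻¹ * ((D.q : ℝ) ^ (2 * m))⁻¹ := fun r hr =>
    hCH1 F D h2 A B hA hB r ((hmem r).1 hr).1 (hsimp r ((hmem r).1 hr).2 ((hmem r).1 hr).1)
      (hiso r ((hmem r).1 hr).2)
  choose! J C hJC using hch
  have hball : ∀ (r : F) (K : ℕ), {t : F | ‖t - r‖ ≤ ‖D.p‖ ^ K} =
      Metric.closedBall r (‖D.p‖ ^ K) := by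
    intro r K
    ext t
    simp only [Set.mem_ofPred_eq, Metric.mem_closedBall, dist_eq_norm]
  have hball1 : {t : F | ‖t‖ ≤ 1} = Metric.closedBall (0 : F) 1 := by
    ext t
    simp only [Set.mem_ofPred_eq, Metric.mem_closedBall, dist_zero_right]
  have hpow : Tendsto (fun K : ℕ => ‖D.p‖ ^ K) atTop (𝓝 0) :=
    tendsto_pow_atTop_nhds_zero_of_lt_one p0.le D.p1
  have hsq : 1 < Real.sqrt D.q := by
    rw [Real.lt_sqrt (by norm_num)]
    linarith
  have hev1 : ∀ᶠ K : ℕ in atTop, ∀ r ∈ R, J r ≤ K :=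
    (Finset.eventually_all R).2 fun r _ => eventually_ge_atTop _
  have hev2 : ∀ᶠ K : ℕ in atTop, ∀ r ∈ R, ∀ s ∈ R, r ≠ s → ‖D.p‖ ^ K < ‖r - s‖ := by
    refine (Finset.eventually_all R).2 fun r _ => (Finset.eventually_all R).2 fun s _ => ?_
    by_cases hrs : r = s
    · exact Eventually.of_forall fun K h => absurd hrs h
    · exact (hpow.eventually_lt_const (norm_pos_iff.2 (sub_ne_zero.2 hrs))).mono
        fun K h _ => h
  have hev3 : ∀ᶠ K : ℕ in atTop, ∀ r ∈ R, Disjoint (Metric.closedBall r (‖D.p‖ ^ K)) S := by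
    refine (Finset.eventually_all R).2 fun r hr => ?_
    have hrS : r ∈ Sᶜ := by
      intro h
      apply hSd r h
      rw [← dp_eval]
      exact ((hmem r).1 hr).1
    obtain ⟨e, he, heS⟩ := Metric.isOpen_iff.1 hSc.isOpen_compl r hrS
    filter_upwards [hpow.eventually_lt_const he] with K hK
    rw [Set.disjoint_left]
    intro t ht
    exact heS (lt_of_le_of_lt (Metric.mem_closedBall.1 ht) hK)
  have hev4 : ∀ᶠ K : ℕ in atTop, (∑ r ∈ R, |C r|) * (Real.sqrt D.q ^ K)⁻¹ ≤ η := by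
    have h1 : Tendsto (fun K : ℕ => (∑ r ∈ R, |C r|) * (Real.sqrt D.q ^ K)⁻¹) atTop
        (𝓝 ((∑ r ∈ R, |C r|) * 0)) :=
      (tendsto_inv_atTop_zero.comp (tendsto_pow_atTop_atTop_of_one_lt hsq)).const_mul _
    rw [mul_zero] at h1
    exact (h1.eventually_lt_const hη).mono fun K h => h.le
  obtain ⟨K, hK1, hK2, hK3, hK4⟩ := (hev1.and (hev2.and (hev3.and hev4))).exists
  have hpK : ‖D.p‖ ^ K ≠ 0 := (pow_pos p0 K).ne'
  have hpK1 : ‖D.p‖ ^ K ≤ 1 := pow_le_one₀ p0.le D.p1.le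
  set O : Set F := {t : F | ‖t‖ ≤ 1} with hO
  have hOc : IsCompact O := by rw [hball1]; exact isCompact_closedBall _ _
  set U : Set F := ⋃ r ∈ R, Metric.closedBall r (‖D.p‖ ^ K) with hU
  have hUo : IsOpen U := isOpen_biUnion fun r _ => IsUltrametricDist.isOpen_closedBall r hpK
  have hUO : U ⊆ O := by
    intro t ht
    obtain ⟨r, hr, htr⟩ := Set.mem_iUnion₂.1 ht
    have h1 : ‖r‖ ≤ 1 := ((hmem r).1 hr).2
    have h3 : ‖t - r‖ ≤ 1 := by
      rw [← dist_eq_norm]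
      exact (Metric.mem_closedBall.1 htr).trans hpK1
    have h4 : t = (t - r) + r := by ring
    show ‖t‖ ≤ 1
    rw [h4]
    exact (IsUltrametricDist.norm_add_le_max _ _).trans (max_le h3 h1)
  have hUc : IsCompact U :=
    R.isCompact_biUnion fun r _ => isCompact_closedBall _ _
  have hSO : S ⊆ O := fun t ht => hS1 t ht
  have hUS : Disjoint U S := by
    rw [hU, Set.disjoint_iUnion₂_left]
    exact hK3
  set T : Set F := O \ (U ∪ S) with hT
  have hTc : IsCompact T := hOc.diff (hUo.union hSo)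
  obtain ⟨m0, hm0⟩ := hCH2 F D h2 A B hA hB T hTc (by
    intro t ht hdet
    apply ht.2
    left
    have h1 : t ∈ R := (hmem t).2 ⟨by rw [dp_eval]; exact hdet, ht.1⟩
    exact Set.mem_iUnion₂.2 ⟨t, h1, Metric.mem_closedBall_self (pow_pos p0 K).le⟩)
    (fun t ht => hiso t ht.1)
  refine ⟨m0, fun m hm => ?_⟩
  have hcont : Continuous (fun t : F => TT D.q (V D (A + t • B) 0) m) := (hMEA F D A B m).2
  have hint : ∀ Q : Set F, IsCompact Q → IntegrableOn (fun t : F => TT D.q (V D (A + t • B) 0) m)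
      Q D.μ := fun Q hQ => hcont.continuousOn.integrableOn_compact hQ
  have hScpt : IsCompact S := hOc.of_isClosed_subset hSc hSO
  have hOe : O = (U ∪ S) ∪ T := (Set.union_sdiff_cancel (Set.union_subset hUO hSO)).symm
  have e1 : (∫ t in O, TT D.q (V D (A + t • B) 0) m ∂D.μ) =
      (∫ t in U, TT D.q (V D (A + t • B) 0) m ∂D.μ) +
      (∫ t in S, TT D.q (V D (A + t • B) 0) m ∂D.μ) +
      (∫ t in T, TT D.q (V D (A + t • B) 0) m ∂D.μ) := by
    conv_lhs => rw [hOe]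
    rw [setIntegral_union Set.disjoint_sdiff_right hTc.measurableSet
      ((hint U hUc).union (hint S hScpt)) (hint T hTc),
      setIntegral_union hUS hSo.measurableSet (hint U hUc) (hint S hScpt)]
  have e2 : (∫ t in U, TT D.q (V D (A + t • B) 0) m ∂D.μ) =
      ∑ r ∈ R, ∫ t in Metric.closedBall r (‖D.p‖ ^ K),
        TT D.q (V D (A + t • B) 0) m ∂D.μ := by
    rw [hU]
    refine integral_biUnion_finset R (fun r _ => Metric.isClosed_closedBall.measurableSet) ?_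
      (fun r _ => hint _ (isCompact_closedBall _ _))
    intro r hr s hs hrs
    show Disjoint (Metric.closedBall r (‖D.p‖ ^ K)) (Metric.closedBall s (‖D.p‖ ^ K))
    rw [Set.disjoint_left]
    intro t htr hts
    have h1 := hK2 r hr s hs hrs
    have h3 : ‖r - t‖ ≤ ‖D.p‖ ^ K := by
      rw [← dist_eq_norm, dist_comm]; exact Metric.mem_closedBall.1 htr
    have h4 : ‖t - s‖ ≤ ‖D.p‖ ^ K := by
      rw [← dist_eq_norm]; exact Metric.mem_closedBall.1 hts
    have h5 : r - s = (r - t) + (t - s) := by ring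
    rw [h5] at h1
    exact absurd ((IsUltrametricDist.norm_add_le_max _ _).trans (max_le h3 h4)) (not_le.2 h1)
  have hqm : 0 ≤ ((D.q : ℝ) ^ (2 * m))⁻¹ := by positivity
  have e3 : |∫ t in U, TT D.q (V D (A + t • B) 0) m ∂D.μ| ≤ η * ((D.q : ℝ) ^ (2 * m))⁻¹ := by
    rw [e2]
    refine (Finset.abs_sum_le_sum_abs _ _).trans ?_
    have h1 : ∀ r ∈ R, |∫ t in Metric.closedBall r (‖D.p‖ ^ K),
        TT D.q (V D (A + t • B) 0) m ∂D.μ| ≤
        |C r| * ((Real.sqrt D.q ^ K)⁻¹ * ((D.q : ℝ) ^ (2 * m))⁻¹) := by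
      intro r hr
      have h3 := hJC r hr K m (hK1 r hr)
      rw [hball] at h3
      refine h3.trans ?_
      rw [mul_assoc]
      exact mul_le_mul_of_nonneg_right (le_abs_self _)
        (mul_nonneg (by positivity) hqm)
    refine (Finset.sum_le_sum h1).trans ?_
    rw [← Finset.sum_mul, ← mul_assoc]
    exact mul_le_mul_of_nonneg_right hK4 hqm
  have e4 : 0 ≤ ∫ t in T, TT D.q (V D (A + t • B) 0) m ∂D.μ :=
    setIntegral_nonneg hTc.measurableSet fun t ht => hm0 m hm t ht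
  have e5 := (abs_le.1 e3).1
  rw [e1]
  linarith

set_option linter.unusedVariables false in
/-- CHA: one chart: the average is not much below zero. -/
theorem pf_CHA (hCH1 : T_CH1) (hCH2 : T_CH2) (hVLC : T_VLC) (hPOS : T_POS) (hMEA : T_MEA)
    (hBAL : T_BAL) : T_CHA := by
  intro F _ _ _ _ _ D h2 A B hA hB hiso hsimp
  have := D.haar
  have p0 : 0 < ‖D.p‖ := norm_pos_iff.2 D.p0
  constructor
  · intro ε hε
    obtain ⟨m0, h⟩ := cha_aux hCH1 hCH2 hMEA F D h2 A B hA hB hiso hsimp ∅ isOpen_empty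
      isClosed_empty (fun t ht => absurd ht (Set.notMem_empty t))
      (fun t ht => absurd ht (Set.notMem_empty t)) ε hε
    refine ⟨m0, fun m hm => ?_⟩
    have h1 := h m hm
    rw [Measure.restrict_empty, integral_zero_measure] at h1
    linarith
  · rintro ⟨t0, ht0, hani⟩
    obtain ⟨δ, hδ, hVL⟩ := hVLC F D h2 A B hA hB t0 (ani_det _ hani)
    obtain ⟨c, m1, hc, hm1⟩ := (hPOS F D h2 (A + t0 • B)
      (by rw [Matrix.transpose_add, Matrix.transpose_smul, hA, hB]) (ani_det _ hani)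
      (hiso t0 ht0)).2 hani
    have hpow : Tendsto (fun K : ℕ => ‖D.p‖ ^ K) atTop (𝓝 0) :=
      tendsto_pow_atTop_nhds_zero_of_lt_one p0.le D.p1
    obtain ⟨e, he⟩ := (hpow.eventually_lt_const hδ).exists
    have hpe : ‖D.p‖ ^ e ≠ 0 := (pow_pos p0 e).ne'
    set S : Set F := Metric.closedBall t0 (‖D.p‖ ^ e) with hS
    have hSn : ∀ t ∈ S, ‖t - t0‖ < δ := by
      intro t ht
      rw [← dist_eq_norm]
      exact lt_of_le_of_lt (Metric.mem_closedBall.1 ht) he
    have hSo : IsOpen S := IsUltrametricDist.isOpen_closedBall t0 hpe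
    have hb : 0 < (D.μ S).toReal := by
      refine ENNReal.toReal_pos ?_ (isCompact_closedBall t0 _).measure_lt_top.ne
      exact (hSo.measure_pos D.μ ⟨t0, Metric.mem_closedBall_self (pow_pos p0 e).le⟩).ne'
    have hη : 0 < c * (D.μ S).toReal / 2 := by positivity
    obtain ⟨m0, h⟩ := cha_aux hCH1 hCH2 hMEA F D h2 A B hA hB hiso hsimp S hSo
      Metric.isClosed_closedBall (by
        intro t ht
        have h3 : ‖t - t0‖ ≤ 1 := by
          rw [← dist_eq_norm]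
          exact (Metric.mem_closedBall.1 ht).trans (pow_le_one₀ p0.le D.p1.le)
        have h4 : t = (t - t0) + t0 := by ring
        rw [h4]
        exact (IsUltrametricDist.norm_add_le_max _ _).trans (max_le h3 ht0))
      (fun t ht => ani_det _ ((hVL t (hSn t ht)).2 hani)) _ hη
    refine ⟨c * (D.μ S).toReal / 2, max m0 m1, hη, fun m hm => ?_⟩
    refine le_trans ?_ (h m ((le_max_left _ _).trans hm))
    have h5 : (∫ t in S, TT D.q (V D (A + t • B) 0) m ∂D.μ) =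
        ∫ t in S, TT D.q (V D (A + t0 • B) 0) m ∂D.μ := by
      refine setIntegral_congr_fun hSo.measurableSet fun t ht => ?_
      have h6 : V D (A + t • B) 0 = V D (A + t0 • B) 0 := funext (hVL t (hSn t ht)).1
      simp only [h6]
    rw [h5, setIntegral_const, Measure.real, smul_eq_mul]
    have h7 := mul_le_mul_of_nonneg_left (hm1 m ((le_max_right _ _).trans hm)) hb.le
    linarith

end Pool.Agent.H10.N6D
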