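import Pool.Agent.H28.N6.Lib

/-!
# Row DSEP: the quaternary lemma, simple roots
-/

set_option autoImplicit false

open MeasureTheory Pool.Agent.H28.N6 Topology Filter Matrix Polynomial

namespace Pool.Agent.H10.N6D

lemma sep_comp {F : Type} [Field F] {ι : Type} [Fintype ι] [DecidableEq ι] (A B : Matrix ι ι F)
    (c : F) : dp B (c • A) = (dp B A).comp (C c * X) := by
  unfold dp
  have h := RingHom.map_det (Polynomial.compRingHom (C c * X)) (B.map C + (X : F[X]) • A.map C)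
  rw [Polynomial.coe_compRingHom_apply] at h
  rw [h]
  congr 1
  ext i j : 2
  simp only [Matrix.add_apply, Matrix.map_apply, Matrix.smul_apply, smul_eq_mul, map_mul,
    RingHom.mapMatrix_apply, Polynomial.coe_compRingHom_apply, add_comp, mul_comp, C_comp, X_comp]
  ring_nf

lemma sep_add {F : Type} [Field F] {ι : Type} (A B : Matrix ι ι F) (s p : F) :
    B + s • (p • A) = (p * s) • A + B := by
  rw [smul_smul, add_comm, mul_comm]

/-- SEP: the quaternary lemma, simple roots. -/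
theorem pf_SEP (hDAT : T_DAT) (hCHA : T_CHA) (hAVG : T_AVG) (hSCI : T_SCI) : T_SEP := by
  intro F _ _ _ h2 A B hA hB hS hani
  obtain ⟨a, b, hab⟩ := hani
  by_contra hno
  have hno' : ∀ a b : F, (a ≠ 0 ∨ b ≠ 0) → ¬ IsoSp (a • A + b • B) 2 := fun a b h h' =>
    hno ⟨a, b, h, h'⟩
  let _ : MeasurableSpace F := borel F
  have : BorelSpace F := ⟨rfl⟩
  obtain ⟨D⟩ := hDAT F
  have hq : (2 : ℝ) ≤ D.q := by exact_mod_cast D.hq
  have p0 : 0 < ‖D.p‖ := norm_pos_iff.2 D.p0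
  have hz : ∀ z : Fin 4 → F, z ≠ 0 → qf A z = 0 → qf B z ≠ 0 := by
    intro z hz h1 h3
    apply hab z hz
    rw [qf_add, qf_smul, qf_smul, h1, h3, mul_zero, mul_zero, add_zero]
  have hab0 : a ≠ 0 ∨ b ≠ 0 := by
    by_contra h
    push Not at h
    have h1 : (Pi.single 0 1 : Fin 4 → F) ≠ 0 := by
      intro h3
      have := congrFun h3 0
      simp at this
    apply hab _ h1
    rw [qf_add, qf_smul, qf_smul, h.1, h.2, zero_mul, zero_mul, add_zero]
  obtain ⟨m0, hm0⟩ := hAVG F D A B hz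
  obtain ⟨c11, c12⟩ := hCHA F D h2 A B hA hB (fun t _ h => hno' 1 t (Or.inl one_ne_zero)
    (by rw [one_smul]; exact h)) (fun t _ h => hS.1 t h)
  obtain ⟨c21, c22⟩ := hCHA F D h2 B (D.p • A) hB (by rw [transpose_smul, hA])
    (fun t _ h => hno' (D.p * t) 1 (Or.inr one_ne_zero) (by
      rw [one_smul, ← sep_add]; exact h)) (by
      intro t _ h
      rw [sep_comp] at h ⊢
      rw [derivative_comp]
      have h3 : (dp B A).eval (D.p * t) = 0 := by simpa using h
      have h4 := hS.2 _ h3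
      simp only [derivative_mul, derivative_C, zero_mul, derivative_X, mul_one, zero_add,
        eval_mul, eval_C, eval_comp, eval_X]
      exact mul_ne_zero D.p0 h4)
  have hsum : ∀ m, m0 ≤ m →
      (∫ t in {t : F | ‖t‖ ≤ 1}, TT D.q (V D (A + t • B) 0) m ∂D.μ) + (D.q : ℝ)⁻¹ *
        (∫ t in {t : F | ‖t‖ ≤ 1}, TT D.q (V D (B + t • (D.p • A)) 0) m ∂D.μ) = 0 := by
    intro m hm
    have h1 := hm0 m hm
    rw [hSCI F D (fun t => TT D.q (V D (t • A + B) 0) m)] at h1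
    simp only [sep_add]
    exact h1
  have hqi : (D.q : ℝ)⁻¹ ≤ 1 := inv_le_one_of_one_le₀ (by linarith)
  have hqp : 0 < (D.q : ℝ)⁻¹ := by positivity
  by_cases hle : ‖b‖ ≤ ‖a‖
  · have ha : a ≠ 0 := by
      rintro rfl
      rw [norm_zero] at hle
      have hb : b = 0 := norm_le_zero_iff.1 hle
      rcases hab0 with h | h
      · exact h rfl
      · exact h hb
    have h1 : Ani (A + (a⁻¹ * b) • B) := by
      have h3 := ani_smul a⁻¹ (inv_ne_zero ha) _ hab
      rwa [smul_add, smul_smul, smul_smul, inv_mul_cancel₀ ha, one_smul] at h3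
    have h3 : ‖a⁻¹ * b‖ ≤ 1 := by
      rw [norm_mul, norm_inv, inv_mul_le_iff₀ (norm_pos_iff.2 ha), mul_one]
      exact hle
    obtain ⟨c, m1, hc, hm1⟩ := c12 ⟨_, h3, h1⟩
    obtain ⟨m2, hm2⟩ := c21 (c / 2) (by positivity)
    obtain ⟨m, hm⟩ : ∃ m, m0 ≤ m ∧ m1 ≤ m ∧ m2 ≤ m :=
      ⟨max m0 (max m1 m2), le_max_left _ _, (le_max_left _ _).trans (le_max_right _ _),
        (le_max_right _ _).trans (le_max_right _ _)⟩
    have e1 := hsum m hm.1
    have e2 := hm1 m hm.2.1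
    have e3 := mul_le_mul_of_nonneg_left (hm2 m hm.2.2) hqp.le
    have e4 : 0 < ((D.q : ℝ) ^ (2 * m))⁻¹ := by positivity
    have e5 := mul_pos hc e4
    have e6 := mul_le_mul_of_nonneg_right hqi e5.le
    linarith
  · have hlt : ‖a‖ < ‖b‖ := not_le.1 hle
    have hb : b ≠ 0 := by
      rintro rfl
      rw [norm_zero] at hlt
      exact absurd (norm_nonneg a) (not_le.2 hlt)
    have h3 : ‖b⁻¹ * a‖ < 1 := by
      rw [norm_mul, norm_inv, inv_mul_lt_iff₀ (norm_pos_iff.2 hb), mul_one]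
      exact hlt
    have h4 : ‖D.p⁻¹ * (b⁻¹ * a)‖ ≤ 1 := by
      rw [norm_mul, norm_inv, inv_mul_le_iff₀ p0, mul_one]
      exact D.gen _ h3
    have h1 : Ani (B + (D.p⁻¹ * (b⁻¹ * a)) • (D.p • A)) := by
      have h5 := ani_smul b⁻¹ (inv_ne_zero hb) _ hab
      rw [smul_add, smul_smul, smul_smul, inv_mul_cancel₀ hb, one_smul] at h5
      rw [sep_add, mul_inv_cancel_left₀ D.p0]
      exact h5
    obtain ⟨c, m1, hc, hm1⟩ := c22 ⟨_, h4, h1⟩
    obtain ⟨m2, hm2⟩ := c11 (c * (D.q : ℝ)⁻¹ / 2) (by positivity)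
    obtain ⟨m, hm⟩ : ∃ m, m0 ≤ m ∧ m1 ≤ m ∧ m2 ≤ m :=
      ⟨max m0 (max m1 m2), le_max_left _ _, (le_max_left _ _).trans (le_max_right _ _),
        (le_max_right _ _).trans (le_max_right _ _)⟩
    have e1 := hsum m hm.1
    have e2 := hm2 m hm.2.2
    have e3 := mul_le_mul_of_nonneg_left (hm1 m hm.2.1) hqp.le
    have e4 : 0 < ((D.q : ℝ) ^ (2 * m))⁻¹ := by positivity
    have e5 := mul_pos (mul_pos hc hqp) e4
    linarith

end Pool.Agent.H10.N6D
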